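import Mathlib
import Pool.Agent.R252.HB.Upper

/-!
# A univalent harmonic self-map of the disk beats every Möbius automorphism

`E = {|w|^2 + (15/4)|Im w| < 1}` is a lens around the real diameter. Every automorphism maps it to
a set of area at most `32/45`: in the coordinate `h = (1+z)/(1-z)` the lens is the sector
`|Im h| < (8/15) Re h`, where the derivative of an automorphism is at most `2B/(Re h + B)^2`.
The harmonic map `f = Re G + (9/4) i Im G`, with `G` the inverse of `t ↦ 2t/(1+t^2)`, maps the disk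
into itself and `f(E)` contains `{|x| < 1, |y| < (18/65)(1-x^2)}`, of area `48/65 > 32/45`.
The compact set `K` is taken from an exhaustion of `E`.
-/

set_option autoImplicit false

namespace Pool.Agent.Results.MP_6004b5_an.HarmonicBeatsMobius

open Complex Metric Set MeasureTheory

/-- The class `H`: sense-preserving univalent harmonic self-maps of the unit disk. -/
def IsClassH (f : ℂ → ℂ) : Prop :=
  (∃ h g : ℂ → ℂ, AnalyticOnNhd ℂ h (ball 0 1) ∧ AnalyticOnNhd ℂ g (ball 0 1) ∧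
    (∀ z ∈ ball (0 : ℂ) 1, f z = h z + (starRingEnd ℂ) (g z)) ∧
    (∀ z ∈ ball (0 : ℂ) 1, 0 < ‖deriv h z‖ ^ 2 - ‖deriv g z‖ ^ 2)) ∧
  InjOn f (ball 0 1) ∧ MapsTo f (ball 0 1) (ball 0 1)

/-- Conformal automorphisms of the unit disk. -/
def IsAutomorphism (φ : ℂ → ℂ) : Prop :=
  ∃ (θ : ℝ) (a : ℂ), ‖a‖ < 1 ∧ ∀ z ∈ ball (0 : ℂ) 1,
    φ z = Complex.exp (θ * Complex.I) * ((z - a) / (1 - (starRingEnd ℂ) a * z))

/-- There are a compact subset `K` of the disk and a harmonic map `f` of the class `H` such that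
`m(φ(K)) ≤ 32/45 < 73/100 < m(f(K))` for every conformal automorphism `φ`. -/
theorem result :
    ∃ K : Set ℂ, IsCompact K ∧ K ⊆ ball 0 1 ∧
      ∃ f : ℂ → ℂ, IsClassH f ∧
        (∀ φ : ℂ → ℂ, IsAutomorphism φ → volume (φ '' K) ≤ ENNReal.ofReal (32 / 45)) ∧
        ENNReal.ofReal (73 / 100) < volume (f '' K) := by
  obtain ⟨n, hn⟩ := Pool.Agent.R252.HB.exists_K (ENNReal.ofReal (73 / 100))
    (by rw [ENNReal.ofReal_lt_ofReal_iff (by norm_num)]; norm_num)
  refine ⟨Pool.Agent.R252.HB.K n, Pool.Agent.R252.HB.K_compact n,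
    (Pool.Agent.R252.HB.K_subset_E n).trans Pool.Agent.R252.HB.E_subset_ball,
    Pool.Agent.R252.HB.f, ⟨⟨fun z => (13 / 8 : ℂ) * Pool.Agent.R252.HB.g z,
      fun z => (-5 / 8 : ℂ) * Pool.Agent.R252.HB.g z, ?_, ?_, ?_, ?_⟩,
      Pool.Agent.R252.HB.f_injOn, Pool.Agent.R252.HB.f_mapsTo⟩, ?_, hn⟩
  · exact analyticOnNhd_const.mul Pool.Agent.R252.HB.g_analyticOnNhd
  · exact analyticOnNhd_const.mul Pool.Agent.R252.HB.g_analyticOnNhd
  · intro z _
    rfl
  · intro z hz
    exact Pool.Agent.R252.HB.f_jac (by simpa using hz)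
  · rintro φ ⟨θ, a, ha, hφ⟩
    have hu : ‖Complex.exp (θ * Complex.I)‖ = 1 := Complex.norm_exp_ofReal_mul_I θ
    refine le_trans (measure_mono ?_)
      (Pool.Agent.R252.HB.volume_auto a ha (Complex.exp (θ * Complex.I)) hu)
    rintro _ ⟨z, hz, rfl⟩
    have hzE := Pool.Agent.R252.HB.K_subset_E n hz
    exact ⟨z, hzE, (hφ z (Pool.Agent.R252.HB.E_subset_ball hzE)).symm⟩

end Pool.Agent.Results.MP_6004b5_an.HarmonicBeatsMobius
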